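import Pool.Agent.Q4.SPC.Stm

/-! Project SPC (helper4), job SA2 (helper252): generation of the symplectic group by elementary matrices. -/

set_option autoImplicit false

open Matrix Q4.GLC Q4.SPC

namespace Pool.Agent.Q252.SPC.SA2

variable {R : Type} [CommRing R] {n : ℕ}

theorem e_eq (i : Fin n) : (Pi.single (Sum.inl i) 1 : Fin n ⊕ Fin n → R) =
    Sum.elim (Pi.single i 1) (0 : Fin n → R) := by
  funext j
  rcases j with j | j
  · by_cases h : j = i
    · subst h; simp
    · rw [Pi.single_eq_of_ne (by simpa using h), Sum.elim_inl, Pi.single_eq_of_ne h]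
  · simp

theorem f_eq (i : Fin n) : (Pi.single (Sum.inr i) 1 : Fin n ⊕ Fin n → R) =
    Sum.elim (0 : Fin n → R) (Pi.single i 1) := by
  funext j
  rcases j with j | j
  · simp
  · by_cases h : j = i
    · subst h; simp
    · rw [Pi.single_eq_of_ne (by simpa using h), Sum.elim_inr, Pi.single_eq_of_ne h]

omit [CommRing R] in
theorem v_eq (v : Fin n ⊕ Fin n → R) : v = Sum.elim (fun i => v (Sum.inl i)) (fun i => v (Sum.inr i)) := by
  funext j
  rcases j with j | j <;> rfl

/-- the form is invariant -/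
theorem form_inv (M : Sp n R) (u v : Fin n ⊕ Fin n → R) :
    (M.1 *ᵥ u) ⬝ᵥ (J (Fin n) R *ᵥ (M.1 *ᵥ v)) = u ⬝ᵥ (J (Fin n) R *ᵥ v) := by
  have h1 : ∀ w : Fin n ⊕ Fin n → R, (M.1 *ᵥ u) ⬝ᵥ w = u ⬝ᵥ (M.1ᵀ *ᵥ w) := fun w => by
    rw [dotProduct_comm, dotProduct_mulVec, ← mulVec_transpose, dotProduct_comm]
  rw [h1, mulVec_mulVec, mulVec_mulVec, SymplecticGroup.mem_iff'.1 M.2]

theorem J_mulVec (v : Fin n ⊕ Fin n → R) :
    J (Fin n) R *ᵥ v = Sum.elim (fun i => - v (Sum.inr i)) (fun i => v (Sum.inl i)) := by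
  conv_lhs => rw [v_eq v]
  rw [J, fromBlocks_mulVec]
  funext j
  rcases j with j | j
  · simp [neg_mulVec]
  · simp

theorem om_inl (i : Fin n) (v : Fin n ⊕ Fin n → R) :
    (Pi.single (Sum.inl i) 1 : Fin n ⊕ Fin n → R) ⬝ᵥ (J (Fin n) R *ᵥ v) = - v (Sum.inr i) := by
  rw [single_one_dotProduct, J_mulVec]
  rfl

theorem om_inr (i : Fin n) (v : Fin n ⊕ Fin n → R) :
    (Pi.single (Sum.inr i) 1 : Fin n ⊕ Fin n → R) ⬝ᵥ (J (Fin n) R *ᵥ v) = v (Sum.inl i) := by
  rw [single_one_dotProduct, J_mulVec]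
  rfl

/-- a symplectic matrix which fixes `e_i` does not change the coordinate `y_i` -/
theorem coord_inr {M : Sp n R} {i : Fin n} (h : M.1 *ᵥ Pi.single (Sum.inl i) 1 = Pi.single (Sum.inl i) 1)
    (v : Fin n ⊕ Fin n → R) : (M.1 *ᵥ v) (Sum.inr i) = v (Sum.inr i) := by
  have h1 := form_inv M (Pi.single (Sum.inl i) 1) v
  rw [h, om_inl, om_inl] at h1
  exact neg_injective h1

theorem coord_inl {M : Sp n R} {i : Fin n} (h : M.1 *ᵥ Pi.single (Sum.inr i) 1 = Pi.single (Sum.inr i) 1)
    (v : Fin n ⊕ Fin n → R) : (M.1 *ᵥ v) (Sum.inl i) = v (Sum.inl i) := by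
  have h1 := form_inv M (Pi.single (Sum.inr i) 1) v
  rw [h, om_inr, om_inr] at h1
  exact h1

theorem mul_mulVec' (M N : Sp n R) (v : Fin n ⊕ Fin n → R) : (M * N).1 *ᵥ v = M.1 *ᵥ (N.1 *ᵥ v) := by
  rw [mulVec_mulVec]
  rfl

theorem fixLt_mul {k : ℕ} {M N : Sp n R} (hM : FixLt k M) (hN : FixLt k N) : FixLt k (M * N) := fun i hi => by
  rw [mul_mulVec', mul_mulVec', (hN i hi).1, (hN i hi).2]
  exact hM i hi

theorem fixLt_one {k : ℕ} : FixLt k (1 : Sp n R) := fun i _ => by
  have h : (1 : Sp n R).1 = 1 := rfl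
  rw [h, one_mulVec, one_mulVec]
  exact ⟨rfl, rfl⟩

/-- clearing of the coordinates `y_i`, `i ∈ s` -/
theorem clear (k : Fin n) (w : Fin n ⊕ Fin n → R) (hk : w (Sum.inr k) = 1) (s : Finset (Fin n)) :
    (∀ i ∈ s, k < i) → ∃ z ∈ Subgroup.closure {x : Sp n R | IsEl 1 x}, FixLt k.1 z ∧
      z.1 *ᵥ Pi.single (Sum.inl k) 1 = Pi.single (Sum.inl k) 1 ∧
      (∀ i ∈ s, (z.1 *ᵥ w) (Sum.inr i) = 0) ∧ (∀ i, i ∉ s → (z.1 *ᵥ w) (Sum.inr i) = w (Sum.inr i)) ∧
      ∀ i, i ≠ k → (z.1 *ᵥ w) (Sum.inl i) = w (Sum.inl i) := by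
  classical
  induction s using Finset.induction_on with
  | empty =>
    intro _
    have h : (1 : Sp n R).1 = 1 := rfl
    refine ⟨1, Subgroup.one_mem _, fixLt_one, ?_, fun i hi => absurd hi (Finset.notMem_empty i), fun i _ => ?_,
      fun i _ => ?_⟩ <;> rw [h, one_mulVec]
  | insert j s hj ih =>
    intro hs
    obtain ⟨z, hz, h1, h2, h3, h4, h5⟩ := ih fun i hi => hs i (Finset.mem_insert_of_mem hi)
    have hkj : k < j := hs j (Finset.mem_insert_self _ _)
    have hks : k ∉ s := fun h => lt_irrefl k (hs k (Finset.mem_insert_of_mem h))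
    set b : R := w (Sum.inr j) with hb
    have hfix : ∀ i : Fin n, i ≤ k → (lvt k j hkj.ne b).1 *ᵥ (Pi.single (Sum.inl i) 1 : Fin n ⊕ Fin n → R) =
        Pi.single (Sum.inl i) 1 := by
      intro i hi
      rw [e_eq, lvt_mulVec]
      have h6 : (Pi.single i 1 : Fin n → R) j = 0 := Pi.single_eq_of_ne (ne_of_gt (lt_of_le_of_lt hi hkj)) _
      rw [h6]
      simp
    have hfix2 : ∀ i : Fin n, i < k → (lvt k j hkj.ne b).1 *ᵥ (Pi.single (Sum.inr i) 1 : Fin n ⊕ Fin n → R) =
        Pi.single (Sum.inr i) 1 := by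
      intro i hi
      rw [f_eq, lvt_mulVec]
      have h6 : (Pi.single i 1 : Fin n → R) k = 0 := Pi.single_eq_of_ne (ne_of_gt hi) _
      rw [h6]
      simp
    have hact : (lvt k j hkj.ne b * z).1 *ᵥ w =
        Sum.elim ((fun i => (z.1 *ᵥ w) (Sum.inl i)) + Pi.single k (b * (z.1 *ᵥ w) (Sum.inl j)))
          ((fun i => (z.1 *ᵥ w) (Sum.inr i)) + Pi.single j (-(b * (z.1 *ᵥ w) (Sum.inr k)))) := by
      rw [mul_mulVec']
      conv_lhs => rw [v_eq (z.1 *ᵥ w)]
      rw [lvt_mulVec]
    refine ⟨lvt k j hkj.ne b * z, Subgroup.mul_mem _ (Subgroup.subset_closure (isEl_lvt k j hkj.ne b (one_dvd _))) hz,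
      fixLt_mul (fun i hi => ⟨hfix i (le_of_lt hi), hfix2 i hi⟩) h1, ?_, ?_, ?_, ?_⟩
    · rw [mul_mulVec', h2]
      exact hfix k le_rfl
    · intro i hi
      rw [hact, Sum.elim_inr, Pi.add_apply]
      rcases Finset.mem_insert.1 hi with rfl | hi'
      · rw [Pi.single_eq_same, h4 i hj, h4 k hks, hk, hb]
        ring
      · have hne : i ≠ j := fun h => hj (h ▸ hi')
        rw [Pi.single_eq_of_ne hne, h3 i hi', add_zero]
    · intro i hi
      rw [Finset.mem_insert, not_or] at hi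
      rw [hact, Sum.elim_inr, Pi.add_apply, Pi.single_eq_of_ne hi.1, add_zero]
      exact h4 i hi.2
    · intro i hi
      rw [hact, Sum.elim_inl, Pi.add_apply, Pi.single_eq_of_ne hi, add_zero]
      exact h5 i hi

theorem sA2 : SA2 := by
  classical
  intro hSA1 R _ hR n g
  set E := Subgroup.closure {x : Sp n R | IsEl 1 x} with hE
  have key : ∀ k : ℕ, k ≤ n → ∃ z ∈ E, FixLt k (z * g) := by
    intro k
    induction k with
    | zero => exact fun _ => ⟨1, Subgroup.one_mem _, fun i hi => absurd hi (Nat.not_lt_zero _)⟩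
    | succ k ih =>
      intro hk
      obtain ⟨z, hz, hfix⟩ := ih (by omega)
      set M := z * g with hM
      let K : Fin n := ⟨k, hk⟩
      -- first vector
      have hv0 : ∀ i : Fin n, i.1 < K.1 → (M.1 *ᵥ Pi.single (Sum.inl K) 1) (Sum.inl i) = 0 ∧
          (M.1 *ᵥ Pi.single (Sum.inl K) 1) (Sum.inr i) = 0 := by
        intro i hi
        have hne : i ≠ K := fun h => by rw [h] at hi; exact lt_irrefl _ hi
        refine ⟨?_, ?_⟩
        · rw [coord_inl (hfix i hi).2]
          exact Pi.single_eq_of_ne (fun h => hne (Sum.inl_injective h)) _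
        · rw [coord_inr (hfix i hi).1]
          exact Pi.single_eq_of_ne (fun h => by cases h) _
      have hc : (fun j => (M⁻¹).1 (Sum.inl K) j) ⬝ᵥ (M.1 *ᵥ Pi.single (Sum.inl K) 1) = 1 := by
        have h1 : ((M⁻¹).1 *ᵥ (M.1 *ᵥ (Pi.single (Sum.inl K) 1 : Fin n ⊕ Fin n → R))) =
            Pi.single (Sum.inl K) 1 := by
          rw [← mul_mulVec', inv_mul_cancel]
          exact one_mulVec _
        have h2 := congrFun h1 (Sum.inl K)
        rw [Pi.single_eq_same] at h2
        exact h2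
      obtain ⟨z1, hz1, hfix1, hz1e⟩ := hSA1 R hR n K _ _ hv0 hc
      set M1 := z1 * M with hM1
      have hfixM1 : FixLt k M1 := fixLt_mul hfix1 hfix
      have hM1e : M1.1 *ᵥ Pi.single (Sum.inl K) 1 = Pi.single (Sum.inl K) 1 := by
        rw [hM1, mul_mulVec', hz1e]
      set w := M1.1 *ᵥ Pi.single (Sum.inr K) 1 with hw
      have hwk : w (Sum.inr K) = 1 := by
        rw [hw, coord_inr hM1e, Pi.single_eq_same]
      have hwi : ∀ i : Fin n, i.1 < K.1 → w (Sum.inl i) = 0 ∧ w (Sum.inr i) = 0 := by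
        intro i hi
        have hne : i ≠ K := fun h => by rw [h] at hi; exact lt_irrefl _ hi
        refine ⟨?_, ?_⟩
        · rw [hw, coord_inl (hfixM1 i hi).2]
          exact Pi.single_eq_of_ne (fun h => by cases h) _
        · rw [hw, coord_inr (hfixM1 i hi).1]
          exact Pi.single_eq_of_ne (fun h => hne (Sum.inr_injective h)) _
      obtain ⟨z2, hz2, hfix2, hz2e, h3, h4, h5⟩ := clear K w hwk (Finset.univ.filter fun i => K < i)
        (fun i hi => (Finset.mem_filter.1 hi).2)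
      -- the vector is now `(x; e_K)`
      set x : Fin n → R := fun i => (z2.1 *ᵥ w) (Sum.inl i) with hx
      have hx0 : ∀ i : Fin n, i < K → x i = 0 := by
        intro i hi
        rw [hx]
        show (z2.1 *ᵥ w) (Sum.inl i) = 0
        rw [h5 i (ne_of_lt hi)]
        exact (hwi i hi).1
      have hy : (fun i => (z2.1 *ᵥ w) (Sum.inr i)) = (Pi.single K 1 : Fin n → R) := by
        funext i
        rcases lt_trichotomy i K with h | h | h
        · rw [h4 i (fun h' => lt_asymm h (Finset.mem_filter.1 h').2), (hwi i h).2, Pi.single_eq_of_ne (ne_of_lt h)]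
        · subst h
          rw [h4 K (fun h' => lt_irrefl _ (Finset.mem_filter.1 h').2), hwk, Pi.single_eq_same]
        · rw [h3 i (Finset.mem_filter.2 ⟨Finset.mem_univ _, h⟩), Pi.single_eq_of_ne (ne_of_gt h)]
      let S : Matrix (Fin n) (Fin n) R := fun i j => if j = K then - x i else if i = K then - x j else 0
      have hS : Sᵀ = S := by
        ext i j
        show (if i = K then - x j else if j = K then - x i else 0) = (if j = K then - x i else if i = K then - x j else 0)
        by_cases h1 : i = K <;> by_cases h2 : j = K <;> simp [h1, h2]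
      have hScol : ∀ j, S *ᵥ Pi.single j 1 = fun i => S i j := fun j => mulVec_single_one S j
      have hupe : ∀ i, (up S hS).1 *ᵥ (Pi.single (Sum.inl i) 1 : Fin n ⊕ Fin n → R) = Pi.single (Sum.inl i) 1 := by
        intro i
        rw [e_eq, up_mulVec, mulVec_zero, add_zero]
      have hupf : ∀ i, i < K → (up S hS).1 *ᵥ (Pi.single (Sum.inr i) 1 : Fin n ⊕ Fin n → R) =
          Pi.single (Sum.inr i) 1 := by
        intro i hi
        rw [f_eq, up_mulVec, hScol]
        congr 1
        funext r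
        show (0 : R) + (if i = K then - x r else if r = K then - x i else 0) = 0
        rw [if_neg (ne_of_lt hi), hx0 i hi, neg_zero, ite_self, add_zero]
      have hfin : (up S hS).1 *ᵥ (z2.1 *ᵥ w) = Pi.single (Sum.inr K) 1 := by
        rw [v_eq (z2.1 *ᵥ w), hy, up_mulVec, hScol, f_eq]
        congr 1
        funext r
        show x r + (if K = K then - x r else if r = K then - x K else 0) = 0
        rw [if_pos rfl, add_neg_cancel]
      refine ⟨up S hS * z2 * z1 * z, Subgroup.mul_mem _ (Subgroup.mul_mem _ (Subgroup.mul_mem _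
        (Subgroup.subset_closure (isEl_up S hS fun i j => one_dvd _)) hz2) hz1) hz, ?_⟩
      have e1 : up S hS * z2 * z1 * z * g = up S hS * (z2 * M1) := by
        rw [hM1, hM]
        group
      rw [e1]
      have hall : FixLt k (up S hS * (z2 * M1)) :=
        fixLt_mul (fun i hi => ⟨hupe i, hupf i hi⟩) (fixLt_mul hfix2 hfixM1)
      intro i hi
      rcases Nat.lt_succ_iff_lt_or_eq.1 hi with h | h
      · exact hall i h
      · have hi' : i = K := Fin.ext h
        subst hi'
        refine ⟨?_, ?_⟩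
        · rw [mul_mulVec', mul_mulVec', hM1e, hz2e, hupe]
        · rw [mul_mulVec', mul_mulVec', ← hw, hfin]
  obtain ⟨z, hz, hfix⟩ := key n le_rfl
  have h1 : z * g = 1 := by
    refine Subtype.ext ?_
    refine Matrix.ext_of_mulVec_single fun j => ?_
    have h2 : (1 : Sp n R).1 = 1 := rfl
    rw [h2, one_mulVec]
    rcases j with j | j
    · exact (hfix j j.2).1
    · exact (hfix j j.2).2
  have h2 : g = z⁻¹ := by
    rw [eq_inv_iff_mul_eq_one, ← mul_eq_one_comm]
    exact h1
  rw [h2]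
  exact Subgroup.inv_mem _ hz

end Pool.Agent.Q252.SPC.SA2
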