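import Pool.Agent.Q4.SPC.Stm

/-! Project SPC (helper4), job SB (helper252): elementary matrices in the commutator subgroup. -/

set_option autoImplicit false

open Matrix Q4.GLC Q4.SPC
open scoped commutatorElement

namespace Pool.Agent.Q252.SPC.SB

variable {R : Type} [CommRing R] {n : ℕ}

theorem cg_up {c : R} (S : Matrix (Fin n) (Fin n) R) (h : Sᵀ = S) (hd : ∀ i j, c ∣ S i j) : Cg c (up S h) := by
  intro i j
  change c ∣ (fromBlocks 1 S 0 1) i j - (1 : Matrix (Fin n ⊕ Fin n) (Fin n ⊕ Fin n) R) i j
  rw [← fromBlocks_one]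
  rcases i with i | i <;> rcases j with j | j
  · simp
  · simpa using hd i j
  · simp
  · simp

theorem cg_lo {c : R} (S : Matrix (Fin n) (Fin n) R) (h : Sᵀ = S) (hd : ∀ i j, c ∣ S i j) : Cg c (lo S h) := by
  intro i j
  change c ∣ (fromBlocks 1 0 S 1) i j - (1 : Matrix (Fin n ⊕ Fin n) (Fin n ⊕ Fin n) R) i j
  rw [← fromBlocks_one]
  rcases i with i | i <;> rcases j with j | j
  · simp
  · simp
  · simpa using hd i j
  · simp

theorem dvd_single {c b : R} (h : c ∣ b) (i j k l : Fin n) : c ∣ single i j b k l := by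
  rw [single_apply]
  split_ifs
  · exact h
  · exact dvd_zero c

theorem cg_lvt {c b : R} (i j : Fin n) (h : i ≠ j) (hd : c ∣ b) : Cg c (lvt i j h b) := by
  intro k l
  change c ∣ (fromBlocks (transvection i j b) 0 0 (transvection j i (-b))) k l -
    (1 : Matrix (Fin n ⊕ Fin n) (Fin n ⊕ Fin n) R) k l
  rw [← fromBlocks_one]
  rcases k with k | k <;> rcases l with l | l
  · simpa [transvection] using dvd_single hd i j k l
  · simp
  · simp
  · simpa [transvection] using dvd_single (dvd_neg.2 hd) j i k l

theorem zz (i j k l : Fin n) (h : j ≠ k) (a b : R) : single i j a * single k l b = 0 := by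
  simp [h]

theorem sym_ii (i : Fin n) (b : R) : (single i i b)ᵀ = single i i b := by
  rw [transpose_single]

theorem sym_ij (i j : Fin n) (b : R) : (single i j b + single j i b)ᵀ = single i j b + single j i b := by
  rw [transpose_add, transpose_single, transpose_single, add_comm]

/-- commutator of a Levi element and an upper one -/
theorem comm_lv_up (i j : Fin n) (h : i ≠ j) (s : R) (S : Matrix (Fin n) (Fin n) R) (hS : Sᵀ = S)
    (T : Matrix (Fin n) (Fin n) R) (hT : Tᵀ = T)
    (e : transvection i j s * S * transvection j i s = S + T) :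
    ⁅lvt i j h s, up S hS⁆ = up T hT := by
  rw [commutatorElement_def]
  have h1 : lvt i j h s * up S hS * (lvt i j h s)⁻¹ =
      up (transvection i j s * S * (transvection i j s)ᵀ) (by
        rw [transpose_mul, transpose_mul, transpose_transpose, hS, Matrix.mul_assoc]) := lv_up _ _ _ _ _
  rw [h1, up_inv, up_mul]
  congr 1
  rw [transv_transpose, e]
  abel

theorem f1 (i j : Fin n) (h : i ≠ j) (s t : R) :
    ⁅lvt i j h s, up (single i j t + single j i t) (sym_ij i j t)⁆ = up (single i i (2 * s * t)) (sym_ii i _) := by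
  refine comm_lv_up i j h s _ _ _ _ ?_
  have e : 2 * s * t = s * t + s * t := by ring
  simp only [transvection, Matrix.add_mul, Matrix.mul_add, Matrix.one_mul, Matrix.mul_one,
    single_mul_single_same, zz _ _ _ _ h.symm, zz _ _ _ _ h, Matrix.zero_mul, add_zero, zero_add]
  rw [e, single_add, mul_comm t s]
  abel

theorem f2 (i j : Fin n) (h : i ≠ j) (s t : R) :
    ⁅lvt i j h s, up (single j j t) (sym_ii j t)⁆ =
      up (single i j (s * t) + single j i (s * t)) (sym_ij i j _) * up (single i i (s ^ 2 * t)) (sym_ii i _) := by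
  rw [up_mul]
  refine comm_lv_up i j h s _ _ _ _ ?_
  simp only [transvection, Matrix.add_mul, Matrix.mul_add, Matrix.one_mul, Matrix.mul_one,
    single_mul_single_same, zz _ _ _ _ h.symm, zz _ _ _ _ h, Matrix.zero_mul, add_zero, zero_add]
  rw [mul_comm t s, show s * t * s = s ^ 2 * t by ring]
  abel

theorem f3 (i j : Fin n) (h : i ≠ j) (s t : R) :
    ⁅up (single i j s + single j i s) (sym_ij i j s), lo (single j j t) (sym_ii j t)⁆ =
      lvt i j h (s * t) * up (single i i (-(s ^ 2 * t))) (sym_ii i _) := by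
  rw [commutatorElement_def, up_inv, lo_inv]
  refine Subtype.ext ?_
  change fromBlocks 1 (single i j s + single j i s) 0 1 * fromBlocks 1 0 (single j j t) 1 *
    fromBlocks 1 (-(single i j s + single j i s)) 0 1 * fromBlocks 1 0 (-(single j j t)) 1 =
    fromBlocks (transvection i j (s * t)) 0 0 (transvection j i (-(s * t))) * fromBlocks 1 (single i i (-(s ^ 2 * t))) 0 1
  have e1 : (single i j s + single j i s) * (single j j t) = single i j (s * t) := by
    rw [Matrix.add_mul, single_mul_single_same, zz _ _ _ _ h, add_zero]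
  have e2 : single j j t * (single i j s + single j i s) = single j i (s * t) := by
    rw [Matrix.mul_add, single_mul_single_same, zz _ _ _ _ h.symm, zero_add, mul_comm t s]
  have e3 : single i j (s * t) * single i j (s * t) = 0 := zz _ _ _ _ h.symm _ _
  have e4 : single i j (s * t) * (single i j s + single j i s) = single i i (s ^ 2 * t) := by
    rw [Matrix.mul_add, single_mul_single_same, zz _ _ _ _ h.symm, zero_add]
    congr 1
    ring
  have e5 : single j j t * single i j (s * t) = 0 := zz _ _ _ _ h.symm _ _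
  have e6 : single i j (s * t) * single i i (-(s ^ 2 * t)) = 0 := zz _ _ _ _ h.symm _ _
  have e7 : single i i (-(s ^ 2 * t)) = -single i i (s ^ 2 * t) := by
    rw [single_neg]
  have e8 : single j i (-(s * t)) = -single j i (s * t) := by
    rw [single_neg]
  simp only [transvection]
  generalize single i j s + single j i s = A at *
  generalize (single j j t : Matrix (Fin n) (Fin n) R) = B at *
  generalize (single i j (s * t) : Matrix (Fin n) (Fin n) R) = X at *
  simp only [fromBlocks_multiply, Matrix.one_mul, Matrix.mul_one, Matrix.zero_mul, Matrix.mul_zero,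
    add_zero, zero_add]
  congr 1
  · simp only [mul_neg, neg_mul, add_mul, one_mul, mul_assoc, e1, e3, add_zero]
    abel
  · simp only [mul_neg, add_mul, one_mul, e1, e4, e6, add_zero]
    rw [e7]
    abel
  · simp only [mul_neg, neg_mul, add_mul, one_mul, mul_assoc, e1, e5]
    abel
  · simp only [mul_neg, e2, e8]
    abel

/-- a symmetric matrix is a sum of elementary ones -/
theorem sum_sym (S : Matrix (Fin n) (Fin n) R) (hS : Sᵀ = S) :
    S = ∑ i, ∑ j, (if i < j then single i j (S i j) + single j i (S i j) else 0) + ∑ i, single i i (S i i) := by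
  ext a b
  rw [Matrix.add_apply, Matrix.sum_apply, Matrix.sum_apply]
  have hs : S b a = S a b := congrFun (congrFun hS a) b
  have h1 : ∀ i, (∑ j, (if i < j then single i j (S i j) + single j i (S i j) else 0)) a b =
      ∑ j, if i < j then (if i = a ∧ j = b then S i j else 0) + (if j = a ∧ i = b then S i j else 0) else 0 := by
    intro i
    rw [Matrix.sum_apply]
    refine Finset.sum_congr rfl fun j _ => ?_
    by_cases h : i < j
    · rw [if_pos h, if_pos h, Matrix.add_apply, single_apply, single_apply]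
    · rw [if_neg h, if_neg h, Matrix.zero_apply]
  simp only [h1]
  have h2 : ∑ i, (single i i (S i i)) a b = if a = b then S a b else 0 := by
    rw [Finset.sum_eq_single a]
    · rw [single_apply]
      by_cases h : a = b
      · subst h; simp
      · simp [h]
    · intro i _ hi
      rw [single_apply, if_neg fun h => hi h.1]
    · exact fun h => absurd (Finset.mem_univ _) h
  rw [h2]
  rcases lt_trichotomy a b with h | h | h
  · rw [if_neg (ne_of_lt h), add_zero, Finset.sum_eq_single a, Finset.sum_eq_single b]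
    · rw [if_pos h, if_pos ⟨rfl, rfl⟩, if_neg fun h' => (ne_of_gt h) h'.1, add_zero]
    · intro j _ hj
      split_ifs with h3 h4 h5 h5
      · exact absurd h4.2 hj
      · exact absurd h4.2 hj
      · exact absurd h5.2 (ne_of_lt h)
      · simp
      · rfl
    · exact fun h => absurd (Finset.mem_univ _) h
    · intro i _ hi
      refine Finset.sum_eq_zero fun j _ => ?_
      split_ifs with h3 h4 h5 h5
      · exact absurd h4.1 hi
      · exact absurd h4.1 hi
      · rw [h5.1, h5.2] at h3
        exact absurd h3 (lt_asymm h)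
      · simp
      · rfl
    · exact fun h => absurd (Finset.mem_univ _) h
  · subst h
    rw [if_pos rfl]
    have h3 : ∑ i, ∑ j, (if i < j then (if i = a ∧ j = a then S i j else 0) + (if j = a ∧ i = a then S i j else 0)
        else (0 : R)) = 0 := by
      refine Finset.sum_eq_zero fun i _ => Finset.sum_eq_zero fun j _ => ?_
      split_ifs with h3 h4 h5 h5
      · exact absurd h3 (by rw [h4.1, h4.2]; exact lt_irrefl _)
      · exact absurd h3 (by rw [h4.1, h4.2]; exact lt_irrefl _)
      · exact absurd h3 (by rw [h5.1, h5.2]; exact lt_irrefl _)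
      · simp
      · rfl
    rw [h3, zero_add]
  · rw [if_neg (ne_of_gt h), add_zero, Finset.sum_eq_single b, Finset.sum_eq_single a]
    · rw [if_pos h, if_neg fun h' => (ne_of_lt h) h'.1, if_pos ⟨rfl, rfl⟩, zero_add]
      exact hs.symm
    · intro j _ hj
      split_ifs with h3 h4 h5 h5
      · exact absurd h4.1 (ne_of_lt h)
      · exact absurd h4.1 (ne_of_lt h)
      · exact absurd h5.1 hj
      · simp
      · rfl
    · exact fun h => absurd (Finset.mem_univ _) h
    · intro i _ hi
      refine Finset.sum_eq_zero fun j _ => ?_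
      split_ifs with h3 h4 h5 h5
      · rw [h4.1, h4.2] at h3
        exact absurd h3 (lt_asymm h)
      · rw [h4.1, h4.2] at h3
        exact absurd h3 (lt_asymm h)
      · exact absurd h5.2 hi
      · simp
      · rfl
    · exact fun h => absurd (Finset.mem_univ _) h

/-- a subgroup which contains the elementary `up` contains all -/
theorem up_mem_of {Q : Subgroup (Sp n R)} {a : R}
    (h1 : ∀ (i : Fin n) (b : R), a ∣ b → up (single i i b) (sym_ii i b) ∈ Q)
    (h2 : ∀ (i j : Fin n) (b : R), i ≠ j → a ∣ b → up (single i j b + single j i b) (sym_ij i j b) ∈ Q)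
    (S : Matrix (Fin n) (Fin n) R) (hS : Sᵀ = S) (hd : ∀ i j, a ∣ S i j) : up S hS ∈ Q := by
  let p : Matrix (Fin n) (Fin n) R → Prop := fun T => ∃ hT : Tᵀ = T, up T hT ∈ Q
  have hadd : ∀ T T', p T → p T' → p (T + T') := by
    rintro T T' ⟨hT, h⟩ ⟨hT', h'⟩
    refine ⟨by rw [transpose_add, hT, hT'], ?_⟩
    rw [← up_mul T T' hT hT']
    exact Subgroup.mul_mem _ h h'
  have hzero : p 0 := ⟨transpose_zero, by rw [up_zero]; exact Subgroup.one_mem _⟩
  have hp : p S := by
    rw [sum_sym S hS]
    refine hadd _ _ ?_ ?_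
    · refine Finset.sum_induction _ p hadd hzero fun i _ => Finset.sum_induction _ p hadd hzero fun j _ => ?_
      split_ifs with h
      · exact ⟨_, h2 i j _ (ne_of_lt h) (hd i j)⟩
      · exact hzero
    · exact Finset.sum_induction _ p hadd hzero fun i _ => ⟨_, h1 i _ (hd i i)⟩
  exact hp.2

theorem sB : Q4.SPC.SB := by
  intro R _ n hn c d hc P hP hN
  have hQ : (⁅P, P⁆ : Subgroup (Sp n R)).Normal := Subgroup.commutator_normal P P
  set Q : Subgroup (Sp n R) := ⁅P, P⁆ with hQdef
  have hex : ∀ i : Fin n, ∃ j : Fin n, i ≠ j := by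
    intro i
    by_cases h : i.1 = 0
    · exact ⟨⟨1, by omega⟩, fun h' => by rw [h'] at h; exact absurd h (by norm_num)⟩
    · exact ⟨⟨0, by omega⟩, fun h' => by rw [h'] at h; exact h rfl⟩
  -- (1)
  have hA : ∀ (i : Fin n) (b : R), c ^ 3 ∣ b → up (single i i b) (sym_ii i b) ∈ Q := by
    rintro i _ ⟨b, rfl⟩
    obtain ⟨j, hij⟩ := hex i
    have h1 := Subgroup.commutator_mem_commutator
      ((hP _).2 (cg_lvt (R := R) (n := n) i j hij (dvd_refl c)))
      ((hP _).2 (cg_up (single i j (c * d * b) + single j i (c * d * b)) (sym_ij i j _) fun k l => by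
        rw [Matrix.add_apply]
        exact dvd_add (dvd_single ⟨d * b, by ring⟩ i j k l) (dvd_single ⟨d * b, by ring⟩ j i k l)))
    rw [f1] at h1
    have e : 2 * c * (c * d * b) = c ^ 3 * b := by
      rw [hc]
      ring
    rw [← hQdef] at h1
    convert h1 using 3
    exact e.symm
  have hB : ∀ (i j : Fin n) (b : R), i ≠ j → c ^ 3 ∣ b → up (single i j b + single j i b) (sym_ij i j b) ∈ Q := by
    rintro i j _ hij ⟨b, rfl⟩
    have h1 := Subgroup.commutator_mem_commutator
      ((hP _).2 (cg_lvt (R := R) (n := n) i j hij (dvd_refl c)))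
      ((hP _).2 (cg_up (single j j (c ^ 2 * b)) (sym_ii j _) fun k l => dvd_single ⟨c * b, by ring⟩ j j k l))
    rw [f2, ← hQdef] at h1
    have h2 := hA i (c ^ 2 * (c ^ 2 * b)) ⟨c * b, by ring⟩
    have h3 := (Subgroup.mul_mem_cancel_right Q h2).1 h1
    have e : c * (c ^ 2 * b) = c ^ 3 * b := by ring
    rw [e] at h3
    exact h3
  have hU := up_mem_of hA hB
  have hL : ∀ (S : Matrix (Fin n) (Fin n) R) (hS : Sᵀ = S), (∀ i j, c ^ 3 ∣ S i j) → lo S hS ∈ Q := by
    intro S hS hd
    have h1 := hU (-S) (by rw [transpose_neg, hS]) fun i j => by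
      rw [Matrix.neg_apply]
      exact (dvd_neg).2 (hd i j)
    have h2 := hQ.conj_mem _ h1 (SymplecticGroup.symJ (Fin n) R)
    rw [symJ_up] at h2
    simpa using h2
  have hT : ∀ (i j : Fin n) (hij : i ≠ j) (b : R), c ^ 3 ∣ b → lvt i j hij b ∈ Q := by
    rintro i j hij _ ⟨b, rfl⟩
    have h1 := Subgroup.commutator_mem_commutator
      ((hP _).2 (cg_up (single i j c + single j i c) (sym_ij i j _) fun k l => by
        rw [Matrix.add_apply]
        exact dvd_add (dvd_single (dvd_refl c) i j k l) (dvd_single (dvd_refl c) j i k l)))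
      ((hP _).2 (cg_lo (single j j (c ^ 2 * b)) (sym_ii j _) fun k l => dvd_single ⟨c * b, by ring⟩ j j k l))
    rw [f3 i j hij, ← hQdef] at h1
    have h2 := hA i (-(c ^ 2 * (c ^ 2 * b))) ⟨-(c * b), by ring⟩
    have h3 := (Subgroup.mul_mem_cancel_right Q h2).1 h1
    have e : c * (c ^ 2 * b) = c ^ 3 * b := by ring
    rw [e] at h3
    exact h3
  have hsm : ∀ (S : Matrix (Fin n) (Fin n) R) (i j : Fin n), c ^ 3 ∣ (c ^ 3 • S) i j := fun S i j => by
    rw [Matrix.smul_apply, smul_eq_mul]
    exact dvd_mul_right _ _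
  have hel : ∀ y : Sp n R, IsEl (c ^ 3) y → y ∈ Q := by
    rintro y (⟨S, hS, h⟩ | ⟨S, hS, h⟩ | ⟨i, j, hij, b, h⟩)
    · have h1 : y = up (c ^ 3 • S) (by rw [transpose_smul, hS]) := Subtype.ext h
      rw [h1]
      exact hU _ _ (hsm S)
    · have h1 : y = lo (c ^ 3 • S) (by rw [transpose_smul, hS]) := Subtype.ext h
      rw [h1]
      exact hL _ _ (hsm S)
    · have h1 : y = lvt i j hij (c ^ 3 * b) := Subtype.ext h
      rw [h1]
      exact hT _ _ _ _ (dvd_mul_right _ _)
  unfold ES
  rw [Subgroup.closure_le]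
  rintro _ ⟨h, y, hy, rfl⟩
  exact hQ.conj_mem _ (hel y hy) h

end Pool.Agent.Q252.SPC.SB
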